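import Pool.Agent.U365.POW.E
import Pool.Agent.Results.MP_b454d1_nt.MultiplicativeValues

/-!
# Rivera's window for all even numbers near `s(m)`, `m - φ(m)` and `α m + β f(m)`

Let `r = 3`, `1 / 2 ≤ u < 1`, `ζ = 2 u / 5`, or `r = 2`, `6 / 11 ≤ u < 1`, `ζ = u / 4`, and `s > 2 u - 1 / 2`. Let `s(m)` be the sum
of the proper divisors of `m`, let `G` have steps bounded below by a positive constant and growth at most `v ^ d`, for example
`G v = v`, let `κ ≥ 0` and `e = d s + κ < 1`. For a set of `m` of lower density at least `1 - e`, ALL even `N` with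
`|N - G (s(m))| ≤ s(m) ^ κ` have at least `δ 𝔖(N) √N / (log N) ^ 2` primes `p` with `√N < p < 4 √N` such that `N - p` has at most `r`
prime factors, all of them at least `N ^ ζ / 2`; and the same holds for `m - φ(m)`. So every even value `N = s(m)`, for at least
`1/2 - ε` of all `m`, is `p + P₃` with a prime `p` in Rivera's window, and for at least `9/22 - ε` of all `m` it is `p + P₂`. More
precisely this holds for almost all `m` with a divisor `≥ m ^ (e + ρ)` which is a prime or the product of two different primes,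
and for the values `g = α m + β f(m)` of multiplicative functions with `f p = p + c` at the primes, uniformly in
`|α|, |β| ≤ N ^ δ'` and with a power saving in the number of the exceptional `m`.

Proof. The number of the exceptional even numbers `≤ X` is at most `X ^ (s + ε)` (starting theorem). Let `m = k v p` with large
primes `p ≠ v`. Then `g = A v p + B (v + p) + B c`, `A = α k + β f(k)`, `B = β c f(k)`, and so
`(A v + B) (A p + B) = A g + B² - A B c`: for given `g`, `k`, `α`, `β` there are only `N^o(1)` possibilities for `p` and `v`.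
-/

set_option autoImplicit false

namespace Pool.Agent.Results.MP_b454d1_nt.AliquotValues

open Finset
open Pool.Agent.U365.POW (Values Dens values_nat values_mono dens_mono)
open Pool.Agent.N733.TG (Expanding)
open Pool.Agent.Results.MP_b454d1_nt.RiveraWindows (sing inSqrt Exc count)

/-- ALL even `N ≥ 1` with `|N - G g| ≤ g ^ κ` have at least `δ 𝔖(N) √N / (log N) ^ 2` primes `p` with `√N < p < 4 √N` such that
`N - p` has at most `r` prime factors, all of them at least `N ^ ζ / 2`. -/
def Near (r : ℕ) (ζ δ : ℝ) (G : ℕ → ℝ) (κ : ℝ) (g : ℕ) : Prop :=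
  ∀ n : ℕ, 1 ≤ n → Even n → |(n : ℝ) - G g| ≤ (g : ℝ) ^ κ →
    δ * sing n * (√(n : ℝ) / Real.log n ^ 2) ≤ (inSqrt r ((n : ℝ) ^ ζ / 2) n : ℝ)

/-- **Theorem.** Let `r = 3`, `1 / 2 ≤ u < 1`, `ζ = 2 u / 5`, or `r = 2`, `6 / 11 ≤ u < 1`, `ζ = u / 4`, and `s > 2 u - 1 / 2`. There is
`δ > 0` such that the following holds. Let `G` have steps `≥ a > 0` and growth at most `v^d`, `κ ≥ 0` and `e = d s + κ < 1`. For every
`ρ > 0` the property `Near` holds for the values of similar functions as the aliquot sum (`Values`: for `s(m)`, for `m - φ(m)` and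
for all `α m + β f(m)`, for almost all the `m` with a divisor `≥ m ^ (e + ρ)` which is a prime or the product of two different
primes), and it holds for `s(m)` and `m - φ(m)` for a set of `m` of lower density at least `1 - e`. -/
theorem result : ∀ (r : ℕ) (u ζ s : ℝ),
      ((r = 3 ∧ 1 / 2 ≤ u ∧ ζ = 2 / 5 * u) ∨ (r = 2 ∧ 6 / 11 ≤ u ∧ ζ = u / 4)) → u < 1 →
      2 * u - 1 / 2 < s → ∃ δ : ℝ, 0 < δ ∧
      ∀ (G : ℕ → ℝ) (d : ℝ), Expanding G d → ∀ κ : ℝ, 0 ≤ κ → d * s + κ < 1 →
        (∀ ρ : ℝ, 0 < ρ → Values (d * s + κ + ρ) (Near r ζ δ G κ)) ∧ Dens (1 - (d * s + κ)) (Near r ζ δ G κ) := by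
  intro r u ζ s hpar hu hs
  obtain ⟨δ, hδ, hcount⟩ := count r u ζ s hpar hu hs
  refine ⟨δ, hδ, fun G d hG κ hκ h1 => ?_⟩
  have hs0 : 0 ≤ s := by
    rcases hpar with ⟨-, h, -⟩ | ⟨-, h, -⟩
    · linarith
    · linarith
  obtain ⟨a, b⟩ := values_nat (Exc r ζ δ) hG (s := s) (κ := κ) hs0 hκ h1 hcount
  have hm : ∀ g : ℕ, (∀ n : ℕ, |(n : ℝ) - G g| ≤ (g : ℝ) ^ κ → 1 ≤ n ∧ n ∉ Exc r ζ δ) → Near r ζ δ G κ g := by
    intro g hg n _ hne hw
    by_contra hcon
    exact (hg n hw).2 ⟨hne, not_le.1 hcon⟩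
  exact ⟨fun ρ hρ => values_mono (a ρ hρ) hm, dens_mono b le_rfl hm⟩

end Pool.Agent.Results.MP_b454d1_nt.AliquotValues
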