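import Pool.Agent.U485.SM.Small
import Pool.Agent.U864.HT.CO2

/-!
# Summands in `(√N, 4√N)` and in all short windows, in sieved random models of the primes

`T` is nondecreasing, `T(n) ≥ 2` for large `n`, `T(n) = n^{o(1)}`; every `n` without prime factors `≤ T(n)` is chosen
independently with probability `min(1, ∏_{p ≤ T(n)} (1 - 1/p)⁻¹ / log n)`. Almost surely, for every large even `N` and
ALL windows `(a, a + h]` with `N^η ≤ a`, `N^η ≤ h`, `2(a + h) ≤ N`, `a + h ≤ A a`, at least `(2 C - δ) h/(log a log N)` of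
the `p` in the window are such that `p` and `N - p` are chosen; in `(√N, 4√N)` there are at least
`(12 C - δ) √N/(log N)²` of them.

Project HT: packages of helper891, helper660, helper139, helper803, helper373, helper741, helper668, helper333,
helper618, helper864.
-/

set_option autoImplicit false

namespace Pool.Agent.Results.MP_b454d1_nt.AllScalesInRandomModels

open MeasureTheory Filter Topology Pool.Agent.U485.SM

/-- the number of the `p` with `√N < p < 4 √N` and `p`, `N - p` in `Q` -/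
noncomputable def rivera (Q : Set ℕ) (N : ℕ) : ℕ :=
  {p : ℕ | √(N : ℝ) < p ∧ (p : ℝ) < 4 * √(N : ℝ) ∧ p ∈ Q ∧ N - p ∈ Q}.ncard

/-- the number of the `p` in `(a, a + h]` with `p`, `N - p` in `Q` -/
noncomputable def window (Q : Set ℕ) (N a h : ℕ) : ℕ := {p : ℕ | a < p ∧ p ≤ a + h ∧ p ∈ Q ∧ N - p ∈ Q}.ncard

/-- **Summands in `(√N, 4√N)` and in all short windows.** -/
theorem result : ∃ C : ℝ, 0 < C ∧
    Tendsto (fun y : ℕ => ∏ p ∈ (Finset.Icc 3 y).filter Nat.Prime, (1 - 1 / ((p : ℝ) - 1) ^ 2)) atTop (𝓝 C) ∧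
    ∀ (Ω : Type) [MeasurableSpace Ω] (μ : Measure Ω) [IsProbabilityMeasure μ] (T : ℕ → ℕ) (E : ℕ → Set Ω),
      Monotone T → (∀ᶠ n in atTop, 2 ≤ T n) → (∀ ε : ℝ, 0 < ε → ∀ᶠ n : ℕ in atTop, (T n : ℝ) ≤ (n : ℝ) ^ ε) →
      Model μ T E → ∀ᵐ ω ∂μ,
        (∀ δ : ℝ, 0 < δ → ∀ᶠ N : ℕ in atTop, Even N →
          (12 * C - δ) * √(N : ℝ) / (Real.log N) ^ 2 ≤ (rivera {m | ω ∈ E m} N : ℝ)) ∧
        ∀ (A : ℕ) (δ η : ℝ), 2 ≤ A → 0 < δ → 0 < η → ∀ᶠ N : ℕ in atTop, ∀ a h : ℕ, Even N →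
          (N : ℝ) ^ η ≤ a → a + h ≤ A * a → 2 * (a + h) ≤ N → (N : ℝ) ^ η ≤ h →
            (2 * C - δ) * h ≤ (window {m | ω ∈ E m} N a h : ℝ) * (Real.log a * Real.log N) := by
  obtain ⟨C, hC0, hC, -⟩ := Pool.Agent.U864.HT.t_CO2
  refine ⟨C, hC0, hC, ?_⟩
  intro Ω _ μ _ T E hT hT2 hTs hE
  filter_upwards [ae_LawS hT hTs hE] with ω hω
  exact ⟨fun δ hδ => sqrt_low hT2 hC0 hC hω δ hδ, small hT2 hC0 hC hω⟩

end Pool.Agent.Results.MP_b454d1_nt.AllScalesInRandomModels
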