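import Pool.Agent.U497.AW.PolyWin

/-!
# Goldbach pairs of almost primes with one member in `(√N, 4 √N)`, for EVERY even `N`, in all windows around almost all integers

Let `N` be ANY large even number. Let `z` be a certain number between two small powers of `N`, `N ^ δ ≤ z ≤ N ^ θ`, and let
`V = 𝔖_z(N) ∏_{p ≤ z} (1 - 1 / p) ^ 2`, where `𝔖_z(N) = 2 ∏_{2 < p ≤ z} (1 - 1 / (p - 1) ^ 2) ∏_{2 < p ≤ z, p ∣ N} (p - 1) / (p - 2)` is the
singular series of Goldbach's problem, over the primes `p ≤ z`. For all but `ε √N` of the integers `n` with `√N < n < 4 √N`, the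
range of the problem, ALL the windows `(u, v]` around `n` in this range of length at least `K / V` contain the expected number
`(v - u) V` of integers `m` for which `m` and `N - m` have no prime factor `p ≤ z`, up to a relative error `ε`. The shortest windows
have the length `K'` times the average distance `(log N) ^ 2 / 𝔖(N)` of the primes `m` with prime `N - m`. All these `m` and `N - m` have
at most `3 / δ` prime factors.

Proof (`Pool/Agent/U497/AW`): the second moment of the numbers of the `m` in short intervals, with an average of the singular series of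
`m, N - m, m + h, N - m - h` over `h`, uniform in `N`, and a maximal inequality for all windows at once.
-/

set_option autoImplicit false

namespace Pool.Agent.Results.MP_b454d1_nt.AlmostPrimePairsInWindows

open Finset Polynomial

/-- The singular series `𝔖(N)` of Goldbach's problem (`N` even), the products restricted to the primes `p ≤ z`. -/
noncomputable def S (z N : ℕ) : ℝ :=
  2 * (∏ p ∈ (Icc 3 z).filter Nat.Prime, (1 - 1 / ((p : ℝ) - 1) ^ 2)) *
    ∏ p ∈ (Icc 3 z).filter (fun p => p.Prime ∧ p ∣ N), ((p : ℝ) - 1) / ((p : ℝ) - 2)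

/-- The expected density `𝔖_z(N) ∏_{p ≤ z} (1 - 1 / p) ^ 2`. -/
noncomputable def density (z N : ℕ) : ℝ := S z N * ∏ p ∈ (Icc 1 z).filter Nat.Prime, (1 - 1 / (p : ℝ)) ^ 2

/-- `x` has no prime factor `p ≤ z`. -/
def Rough (z x : ℕ) : Prop := ∀ p : ℕ, p.Prime → p ≤ z → ¬ p ∣ x

/-- The number of the `m` with `u < m ≤ v` for which neither `m` nor `N - m` has a prime factor `p ≤ z`. -/
noncomputable def count (N z u v : ℕ) : ℕ := Set.ncard {m : ℕ | u < m ∧ m ≤ v ∧ Rough z m ∧ Rough z (N - m)}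

/-- The integers `n` which lie in SOME window `(u, v]` all of whose elements `m` satisfy `√N < m < 4 √N`, with `V (v - u) ≥ K`,
`V = density z N`, in which the number of such `m` differs from `V (v - u)` by more than `ε V (v - u)`. -/
def exceptions (N : ℕ) (ε K : ℝ) (z : ℕ) : Set ℕ :=
  {n : ℕ | ∃ u v : ℕ, Nat.sqrt N ≤ u ∧ u < n ∧ n ≤ v ∧ v ^ 2 < 16 * N ∧ K ≤ density z N * ((v : ℝ) - u) ∧
    ε * (density z N * ((v : ℝ) - u)) < |(count N z u v : ℝ) - density z N * ((v : ℝ) - u)|}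

/-- the linear forms -/
noncomputable def pol (d : ℕ) : Fin 2 → ℤ[X] := ![X, C (-1) * X + C (d : ℤ)]

lemma rough_iff (z x : ℕ) : Pool.Agent.U497.AW.Rgh z (x : ℤ) ↔ Rough z x := by
  unfold Pool.Agent.U497.AW.Rgh Rough
  simp only [Int.natCast_dvd_natCast]

lemma pol_zero (d : ℕ) : pol d 0 = X := rfl

lemma pol_one (d : ℕ) : pol d 1 = C (-1) * X + C (d : ℤ) := rfl

lemma ev_one (d : ℕ) (x : ℤ) : (pol d 1).eval x = d - x := by
  rw [pol_one, eval_add, eval_mul, eval_C, eval_X, eval_C]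
  ring

lemma pol_adm {d : ℕ} (hd : Even d) : Pool.Agent.U497.AW.Adm 2 1 (pol d) := by
  have hdeg : ∀ i, (pol d i).natDegree = 1 := by
    rw [Fin.forall_fin_two, pol_zero, pol_one]
    exact ⟨natDegree_X, natDegree_linear (by norm_num)⟩
  refine ⟨fun i => (hdeg i).ge, fun i => (hdeg i).le, fun p hp => ?_⟩
  have h1 : ¬ (p : ℤ) ∣ 1 := by
    intro h
    have : p ∣ 1 := by exact_mod_cast h
    exact hp.one_lt.ne' (Nat.dvd_one.1 this)
  by_cases hpd : (p : ℤ) ∣ d - 1
  · have hp2 : p ≠ 2 := by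
      intro h2
      subst h2
      obtain ⟨e, he⟩ := hd
      have h3 : (2 : ℤ) ∣ d - 1 := by exact_mod_cast hpd
      omega
    refine ⟨2, ?_⟩
    rw [Fin.forall_fin_two, pol_zero, eval_X, ev_one]
    refine ⟨fun h => ?_, fun h => ?_⟩
    · have h3 : p ∣ 2 := by exact_mod_cast h
      exact hp2 ((Nat.prime_dvd_prime_iff_eq hp Nat.prime_two).1 h3)
    · apply h1
      have h3 : (1 : ℤ) = (d - 1) - (d - 2) := by ring
      rw [h3]
      exact dvd_sub hpd h
  · refine ⟨1, ?_⟩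
    rw [Fin.forall_fin_two, pol_zero, eval_X, ev_one]
    exact ⟨h1, hpd⟩

lemma om_eq {d p : ℕ} (hp : p.Prime) : Pool.Agent.U497.AW.om (pol d) p = if p ∣ d then 1 else 2 := by
  have h0 : ∀ n : ℕ, (∃ i, (p : ℤ) ∣ (pol d i).eval (n : ℤ)) ↔ p ∣ n ∨ (p : ℤ) ∣ (d : ℤ) - n := by
    intro n
    rw [Fin.exists_fin_two, pol_zero, eval_X, ev_one, Int.natCast_dvd_natCast]
  unfold Pool.Agent.U497.AW.om
  simp only [h0]
  split_ifs with hd
  · have h1 : (range p).filter (fun n : ℕ => p ∣ n ∨ (p : ℤ) ∣ (d : ℤ) - n) = {0} := by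
      ext n
      rw [mem_filter, mem_range, mem_singleton]
      constructor
      · rintro ⟨h1, h2 | h2⟩
        · exact Nat.eq_zero_of_dvd_of_lt h2 h1
        · have h3 : (p : ℤ) ∣ n := by
            have h4 : (n : ℤ) = d - (d - n) := by ring
            rw [h4]
            exact dvd_sub (Int.natCast_dvd_natCast.2 hd) h2
          exact Nat.eq_zero_of_dvd_of_lt (Int.natCast_dvd_natCast.1 h3) h1
      · rintro rfl
        exact ⟨hp.pos, Or.inl (dvd_zero _)⟩
    rw [h1, card_singleton]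
  · have hr : 0 < d % p := by
      rcases Nat.eq_zero_or_pos (d % p) with h | h
      · exact absurd (Nat.dvd_of_mod_eq_zero h) hd
      · exact h
    have hr2 : d % p < p := Nat.mod_lt _ hp.pos
    have h1 : (range p).filter (fun n : ℕ => p ∣ n ∨ (p : ℤ) ∣ (d : ℤ) - n) = {0, d % p} := by
      ext n
      rw [mem_filter, mem_range, mem_insert, mem_singleton]
      constructor
      · rintro ⟨h1, h2 | h2⟩
        · exact Or.inl (Nat.eq_zero_of_dvd_of_lt h2 h1)
        · right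
          have h3 : n ≡ d [MOD p] := (Nat.modEq_iff_dvd).2 h2
          unfold Nat.ModEq at h3
          rwa [Nat.mod_eq_of_lt h1] at h3
      · rintro (rfl | rfl)
        · exact ⟨hp.pos, Or.inl (dvd_zero _)⟩
        · exact ⟨hr2, Or.inr ((Nat.modEq_iff_dvd).1 (Nat.mod_modEq d p))⟩
    rw [h1, card_pair]
    omega

lemma density_eq {d z : ℕ} (hd : Even d) (hz : 2 ≤ z) : Pool.Agent.U497.AW.dens (pol d) z = density z d := by
  have h1 : Pool.Agent.U497.AW.dens (pol d) z =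
      ∏ p ∈ (Icc 1 z).filter Nat.Prime, (if p ∣ d then (1 - 1 / (p : ℝ)) else (1 - 2 / (p : ℝ))) := by
    unfold Pool.Agent.U497.AW.dens
    apply prod_congr rfl
    intro p hp
    rw [om_eq (mem_filter.1 hp).2]
    split_ifs <;> norm_num
  have h2 : (Icc 1 z).filter Nat.Prime = insert 2 ((Icc 3 z).filter Nat.Prime) := by
    ext p
    rw [mem_insert, mem_filter, mem_filter, mem_Icc, mem_Icc]
    constructor
    · rintro ⟨h3, h4⟩
      rcases h4.two_le.eq_or_lt with h5 | h5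
      · exact Or.inl h5.symm
      · exact Or.inr ⟨⟨h5, h3.2⟩, h4⟩
    · rintro (rfl | ⟨h3, h4⟩)
      · exact ⟨⟨by norm_num, hz⟩, Nat.prime_two⟩
      · exact ⟨⟨by omega, h3.2⟩, h4⟩
  have h3 : (2 : ℕ) ∉ (Icc 3 z).filter Nat.Prime := by
    rw [mem_filter, mem_Icc]
    omega
  have h4 : ∏ p ∈ (Icc 3 z).filter (fun p => p.Prime ∧ p ∣ d), ((p : ℝ) - 1) / ((p : ℝ) - 2) =
      ∏ p ∈ (Icc 3 z).filter Nat.Prime, (if p ∣ d then ((p : ℝ) - 1) / ((p : ℝ) - 2) else 1) := by
    rw [← filter_filter, prod_filter (fun p => p ∣ d)]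
  unfold density S
  rw [h1, h4, h2, prod_insert h3, prod_insert h3, if_pos hd.two_dvd]
  have h5 : ∏ p ∈ (Icc 3 z).filter Nat.Prime, (if p ∣ d then (1 - 1 / (p : ℝ)) else (1 - 2 / (p : ℝ))) =
      (∏ p ∈ (Icc 3 z).filter Nat.Prime, (1 - 1 / ((p : ℝ) - 1) ^ 2)) *
      (∏ p ∈ (Icc 3 z).filter Nat.Prime, (if p ∣ d then ((p : ℝ) - 1) / ((p : ℝ) - 2) else 1)) *
      ∏ p ∈ (Icc 3 z).filter Nat.Prime, (1 - 1 / (p : ℝ)) ^ 2 := by
    rw [← prod_mul_distrib, ← prod_mul_distrib]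
    apply prod_congr rfl
    intro p hp
    rw [mem_filter, mem_Icc] at hp
    have hp3 : (3 : ℝ) ≤ p := by exact_mod_cast hp.1.1
    have e1 : (p : ℝ) ≠ 0 := by linarith
    have e2 : (p : ℝ) - 1 ≠ 0 := by linarith
    have e3 : (p : ℝ) - 2 ≠ 0 := by linarith
    split_ifs
    · field_simp
      ring
    · field_simp
      ring
  rw [h5]
  norm_num
  ring

lemma count_eq {N z u v : ℕ} (hv : v ≤ N) : Pool.Agent.U497.AW.cntW (pol N) z u v = count N z u v := by
  unfold Pool.Agent.U497.AW.cntW count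
  congr 1
  ext m
  rw [Set.mem_ofPred_eq, Set.mem_ofPred_eq]
  apply and_congr_right
  intro _
  apply and_congr_right
  intro hm
  have e1 : (pol N 1).eval (m : ℤ) = ((N - m : ℕ) : ℤ) := by
    rw [ev_one, Nat.cast_sub (hm.trans hv)]
  rw [Fin.forall_fin_two, e1, pol_zero, eval_X, rough_iff, rough_iff]

/-- **Theorem.** -/
theorem result (ε θ : ℝ) (hε : 0 < ε) (hθ : 0 < θ) :
    ∃ δ K : ℝ, 0 < δ ∧ 0 < K ∧ ∃ N₀ : ℕ, ∀ N : ℕ, N₀ ≤ N → Even N → ∃ z : ℕ, (N : ℝ) ^ δ ≤ z ∧ (z : ℝ) ≤ (N : ℝ) ^ θ ∧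
      ((exceptions N ε K z).ncard : ℝ) ≤ ε * Real.sqrt N ∧
      ∀ m : ℕ, Nat.sqrt N < m → m ^ 2 < 16 * N → Rough z m → Rough z (N - m) →
        (m.primeFactorsList.length : ℝ) ≤ 3 / δ ∧ ((N - m).primeFactorsList.length : ℝ) ≤ 3 / δ := by
  obtain ⟨δ, K, hδ, hK, H₀, h1⟩ := Pool.Agent.U497.AW.polyWin 2 1 (ε / 6) θ (by positivity) hθ
  obtain ⟨H₁, hH₁⟩ : ∃ H₁ : ℕ, ∀ H : ℕ, H₁ ≤ H → (2 : ℝ) ≤ (H : ℝ) ^ δ := by
    have h2 : Filter.Tendsto (fun H : ℕ => (H : ℝ) ^ δ) Filter.atTop Filter.atTop :=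
      (tendsto_rpow_atTop hδ).comp tendsto_natCast_atTop_atTop
    exact Filter.eventually_atTop.1 (h2.eventually_ge_atTop 2)
  refine ⟨δ / 2, K, by positivity, hK, (H₀ + H₁ + 5) ^ 2, fun N hN hNe => ?_⟩
  obtain ⟨s, hs⟩ : ∃ s : ℕ, s = Nat.sqrt N := ⟨_, rfl⟩
  have hs1 : s * s ≤ N := by rw [hs]; exact Nat.sqrt_le N
  have hs2 : N < (s + 1) * (s + 1) := by rw [hs]; exact Nat.lt_succ_sqrt N
  have hs3 : H₀ + H₁ + 5 ≤ s := by
    by_contra hcon
    have h2 : s + 1 ≤ H₀ + H₁ + 5 := by omega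
    have h3 : (s + 1) * (s + 1) ≤ (H₀ + H₁ + 5) ^ 2 := by
      rw [pow_two]
      exact Nat.mul_le_mul h2 h2
    omega
  obtain ⟨H, hH⟩ : ∃ H : ℕ, H = 3 * s + 3 := ⟨_, rfl⟩
  have hHN : H ≤ N := by
    have h2 : 5 * s ≤ s * s := Nat.mul_le_mul_right _ (by omega)
    omega
  have hNH : N ≤ H ^ 2 := by
    have h2 : (s + 1) * (s + 1) ≤ H * H := Nat.mul_le_mul (by omega) (by omega)
    rw [pow_two]
    omega
  have hv : ∀ v : ℕ, v ^ 2 < 16 * N → v ≤ s + H := by
    intro v hv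
    by_contra hcon
    have h2 : 4 * (s + 1) ≤ v := by omega
    have h3 : (4 * (s + 1)) ^ 2 ≤ v ^ 2 := Nat.pow_le_pow_left h2 2
    have h4 : (4 * (s + 1)) ^ 2 = 16 * ((s + 1) * (s + 1)) := by ring
    omega
  have hvN : s + H ≤ N := by
    have h2 : 5 * s ≤ s * s := Nat.mul_le_mul_right _ (by omega)
    omega
  obtain ⟨z, hz1, hz2, hz3⟩ := h1 H (by omega)
  have hz2' : 2 ≤ z := by
    have h2 := (hH₁ H (by omega)).trans hz1
    exact_mod_cast h2
  have hH0 : (0 : ℝ) < H := by exact_mod_cast (by omega : 0 < H)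
  have hdelta : (N : ℝ) ^ (δ / 2) ≤ z := by
    refine le_trans ?_ hz1
    have h2 : (N : ℝ) ≤ (H : ℝ) ^ (2 : ℝ) := by
      rw [Real.rpow_two]
      exact_mod_cast hNH
    calc (N : ℝ) ^ (δ / 2) ≤ ((H : ℝ) ^ (2 : ℝ)) ^ (δ / 2) := Real.rpow_le_rpow (Nat.cast_nonneg _) h2 (by positivity)
      _ = (H : ℝ) ^ δ := by
          rw [← Real.rpow_mul hH0.le]
          congr 1
          ring
  have hzθ : (z : ℝ) ≤ (N : ℝ) ^ θ := by
    refine hz2.trans (Real.rpow_le_rpow hH0.le ?_ hθ.le)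
    exact_mod_cast hHN
  refine ⟨z, hdelta, hzθ, ?_, ?_⟩
  · obtain ⟨h2, -⟩ := hz3 _ (pol_adm hNe) s
    have h3 : exceptions N ε K z ⊆ Pool.Agent.U497.AW.excW (pol N) (ε / 6) K z s H := by
      rintro n ⟨u, v, h4, h5, h6, h7, h8, h9⟩
      have hvs := hv v h7
      refine ⟨u, v, by rw [hs]; exact h4, h5, h6, hvs, ?_, ?_⟩
      · rw [density_eq hNe hz2']
        exact h8
      · rw [density_eq hNe hz2', count_eq (hvs.trans hvN)]
        refine lt_of_le_of_lt ?_ h9
        apply mul_le_mul_of_nonneg_right (by linarith)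
        linarith
    have hfin : (Pool.Agent.U497.AW.excW (pol N) (ε / 6) K z s H).Finite := by
      apply (Finset.finite_toSet (Icc 0 (s + H))).subset
      rintro n ⟨u, v, h4, h5, h6, h7, h8, h9⟩
      rw [mem_coe, mem_Icc]
      omega
    have hsr : (s : ℝ) ≤ Real.sqrt N := by
      apply Real.le_sqrt_of_sq_le
      rw [pow_two]
      exact_mod_cast hs1
    have hs5 : (5 : ℝ) ≤ s := by exact_mod_cast (by omega : 5 ≤ s)
    calc ((exceptions N ε K z).ncard : ℝ) ≤
          ((Pool.Agent.U497.AW.excW (pol N) (ε / 6) K z s H).ncard : ℝ) := by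
          exact_mod_cast Set.ncard_le_ncard h3 hfin
      _ ≤ ε / 6 * (H : ℝ) := h2
      _ ≤ ε / 6 * (6 * s) := by
          rw [hH]
          push_cast
          gcongr
          linarith
      _ = ε * s := by ring
      _ ≤ ε * Real.sqrt N := by gcongr
  · intro m hm1 hm2 hr1 hr2
    obtain ⟨-, h3⟩ := hz3 _ (pol_adm hNe) s
    have hms : m ≤ s + H := hv m hm2
    have e1 : (pol N 1).eval (m : ℤ) = ((N - m : ℕ) : ℤ) := by
      rw [ev_one, Nat.cast_sub (hms.trans hvN)]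
    have hcoef : ∀ i j, |(pol N i).coeff j| ≤ (H : ℤ) ^ 2 := by
      have h5 : (1 : ℤ) ≤ (H : ℤ) ^ 2 := one_le_pow₀ (by exact_mod_cast (by omega : 1 ≤ H))
      have h6 : (N : ℤ) ≤ (H : ℤ) ^ 2 := by exact_mod_cast hNH
      rw [Fin.forall_fin_two, pol_zero, pol_one]
      refine ⟨fun j => ?_, fun j => ?_⟩
      · rw [coeff_X]
        split_ifs
        · simpa using h5
        · simpa using zero_le_one.trans h5
      · have h : (C (-1) * X + C (N : ℤ) : ℤ[X]).coeff j =
            (-1) * (if 1 = j then 1 else 0) + (if j = 0 then (N : ℤ) else 0) := by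
          simp only [coeff_add, coeff_C_mul, coeff_X, coeff_C]
        rw [h]
        rcases j with _ | _ | j
        · simpa using h6
        · simpa using h5
        · simpa using zero_le_one.trans h5
    have hsH : s ≤ H ^ 2 := by
      have h7 : s ≤ H := by omega
      exact h7.trans (Nat.le_self_pow two_ne_zero H)
    have h5 := h3 2 hcoef hsH m hms (by
      rw [Fin.forall_fin_two, e1, pol_zero, eval_X, rough_iff, rough_iff]
      exact ⟨hr1, hr2⟩)
    have h6 := (h5 0).2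
    have h7 := (h5 1).2
    rw [pol_zero, eval_X, Int.natAbs_natCast] at h6
    rw [e1, Int.natAbs_natCast] at h7
    have e2 : (((2 : ℕ) : ℝ) + 1) * (((1 : ℕ) : ℝ) + 1) / δ = 3 / (δ / 2) := by
      field_simp
      norm_num
    rw [e2] at h6 h7
    exact ⟨h6, h7⟩

end Pool.Agent.Results.MP_b454d1_nt.AlmostPrimePairsInWindows
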