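import Mathlib
import Pool.Agent.U462.Sh.ZGold

set_option autoImplicit false

/-!
# The Goldbach–Knjzek–Rivera conjecture: every sparse set of exceptions is possible
-/

namespace Pool.Agent.Results.MP_b454d1_nt.AnySparseExceptions

open Finset Filter
open scoped Topology
open Pool.Agent.U462.Sh.Law

/-- the number of the `p` with `√M < p < 4 √M` for which `p` and `M - p` belong to `S` -/
noncomputable def reps (S : Set ℕ) (M : ℕ) : ℕ := {p : ℕ | M < p ^ 2 ∧ p ^ 2 < 16 * M ∧ p ∈ S ∧ M - p ∈ S}.ncard

/-- `L` has at `m` values `a`, `b` with `a, b ≥ 2`, `a + b = M`, `√M < a < 4 √M` for some `M` in `E` -/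
def Involved (E : Set ℕ) (L : Finset (ℤ × ℤ)) (m : ℕ) : Prop :=
  ∃ M ∈ E, ∃ a b : ℕ, 2 ≤ a ∧ 2 ≤ b ∧ a + b = M ∧ M < a ^ 2 ∧ a ^ 2 < 16 * M ∧
    (∃ l ∈ L, value l m = a) ∧ ∃ l ∈ L, value l m = b

/-- **Every sparse set of exceptions is possible.** For every set `E` of natural numbers with a bounded
number of elements in the intervals `[x, 16 x]` (for instance the powers of two) there is a set `S` of rough
numbers `≥ 2` such that for `M` in `E` there is no `p`, `√M < p < 4 √M`, with `p` and `M - p` in `S`, while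
the number of these `p` tends to infinity for the even numbers `M` outside `E`, and for which the uniform
Hardy–Littlewood law holds for all systems of linear forms and all intervals `[u, v)` for which at most
`√(v - u)` of the `m` in `[u, v)` are involved with such a representation of an element of `E`. -/
theorem result : ∀ E : Set ℕ, (∃ C : ℕ, ∀ x : ℕ, {M : ℕ | M ∈ E ∧ x ≤ M ∧ M ≤ 16 * x}.ncard ≤ C) →
    ∃ S : Set ℕ, (∀ m ∈ S, 2 ≤ m ∧ Rough m) ∧ (∀ M ∈ E, reps S M = 0) ∧
    (∀ K : ℕ, ∃ M₀ : ℕ, ∀ M : ℕ, M₀ ≤ M → Even M → M ∉ E → K ≤ reps S M) ∧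
    LawOn S (fun L u v => (({m : ℕ | u ≤ m ∧ m < v ∧ Involved E L m}.ncard : ℕ) : ℝ) ≤
      Real.sqrt ((v : ℝ) - u)) := by
  classical
  rintro E ⟨C, hC⟩
  obtain ⟨H, hH⟩ : ∃ H : Finset ℕ → Prop, H = fun e => ∃ M ∈ E, ∃ a b : ℕ, 2 ≤ a ∧ 2 ≤ b ∧ a + b = M ∧
    M < a ^ 2 ∧ a ^ 2 < 16 * M ∧ e = {a, b} := ⟨_, rfl⟩
  have h0 : ¬ H ∅ := by
    rw [hH]
    rintro ⟨M, _, a, b, _, _, _, _, _, he⟩
    have : a ∈ (∅ : Finset ℕ) := by rw [he]; simp
    exact notMem_empty _ this
  have hCf : ∀ x : ℕ, #((Icc x (16 * x)).filter fun M => M ∈ E) ≤ C := by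
    intro x
    refine le_trans (le_of_eq ?_) (hC x)
    rw [← Set.ncard_coe_finset]
    congr 1
    ext M
    rw [mem_coe, mem_filter, mem_Icc]
    exact ⟨fun h => ⟨h.2, h.1.1, h.1.2⟩, fun h => ⟨⟨h.2.1, h.2.2⟩, h.1⟩⟩
  have hsp : Pool.Agent.U462.Sh.SparseFam H := by
    refine Pool.Agent.U462.Sh.sparse_of_few H (1 + C + C)
      (fun n => insert n ((((Icc (n ^ 2 / 16 + 1) (16 * (n ^ 2 / 16 + 1))).filter fun M => M ∈ E).image
        fun M => M - n) ∪ (((Icc n (16 * n)).filter fun M => M ∈ E).image fun M => M - n))) ?_ ?_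
    · intro n
      refine (card_insert_le _ _).trans ?_
      have h1 := card_union_le (((Icc (n ^ 2 / 16 + 1) (16 * (n ^ 2 / 16 + 1))).filter fun M => M ∈ E).image
        fun M => M - n) (((Icc n (16 * n)).filter fun M => M ∈ E).image fun M => M - n)
      have h2 := (card_image_le (s := (Icc (n ^ 2 / 16 + 1) (16 * (n ^ 2 / 16 + 1))).filter fun M => M ∈ E)
        (f := fun M => M - n)).trans (hCf _)
      have h3 := (card_image_le (s := (Icc n (16 * n)).filter fun M => M ∈ E)
        (f := fun M => M - n)).trans (hCf _)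
      omega
    · intro e he n h1 m h2
      rw [hH] at he
      obtain ⟨M, hM, a, b, ha, hb, hab, hlow, hup, rfl⟩ := he
      simp only [mem_insert, mem_singleton] at h1 h2
      rw [mem_insert]
      by_cases hmn : m = n
      · left; exact hmn
      · right
        rw [mem_union]
        rcases h1 with rfl | rfl
        · -- n = a, m = b
          have hmb : m = b := by
            rcases h2 with h | h
            · exact absurd h hmn
            · exact h
          left
          refine mem_image.2 ⟨M, mem_filter.2 ⟨mem_Icc.2 ⟨?_, ?_⟩, hM⟩, by omega⟩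
          · omega
          · omega
        · -- n = b, m = a
          have hma : m = a := by
            rcases h2 with h | h
            · exact h
            · exact absurd h hmn
          right
          refine mem_image.2 ⟨M, mem_filter.2 ⟨mem_Icc.2 ⟨by omega, ?_⟩, hM⟩, by omega⟩
          by_contra hcon
          push Not at hcon
          -- a > 15 n
          have h4 : 15 * n < a := by omega
          have h5 : a ^ 2 < 18 * a := by
            have : 16 * M < 18 * a := by omega
            omega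
          have h6 : a < 18 := by nlinarith
          omega
  obtain ⟨S, h1, h2, h3⟩ := Pool.Agent.U462.Sh.on_of H h0 hsp
  have hlaw : LawOn S (fun L u v => (({m : ℕ | u ≤ m ∧ m < v ∧ Involved E L m}.ncard : ℕ) : ℝ) ≤
      Real.sqrt ((v : ℝ) - u)) := by
    apply h3
    intro k
    refine ⟨1, 0, ?_⟩
    intro X _ L _ _ _ u v _ _ _ hgood
    rw [one_mul]
    refine le_trans (le_of_eq ?_) hgood
    congr 2
    ext m
    refine and_congr_right fun _ => and_congr_right fun _ => ?_
    unfold Involved
    rw [hH]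
    constructor
    · rintro ⟨e, ⟨M, hM, a, b, ha, hb, hab, hlow, hup, rfl⟩, hall⟩
      exact ⟨M, hM, a, b, ha, hb, hab, hlow, hup, hall _ (by simp), hall _ (by simp)⟩
    · rintro ⟨M, hM, a, b, ha, hb, hab, hlow, hup, h4, h5⟩
      refine ⟨_, ⟨M, hM, a, b, ha, hb, hab, hlow, hup, rfl⟩, ?_⟩
      intro m' hm'
      simp only [mem_insert, mem_singleton] at hm'
      rcases hm' with rfl | rfl
      exacts [h4, h5]
  have hfin : ∀ M, {p : ℕ | M < p ^ 2 ∧ p ^ 2 < 16 * M ∧ p ∈ S ∧ M - p ∈ S}.Finite := fun M =>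
    (Set.finite_Iio (16 * M)).subset (fun p hp => by
      have h4 := hp.2.1
      have h5 : p ≤ p ^ 2 := Nat.le_self_pow (by norm_num) p
      exact lt_of_le_of_lt h5 h4)
  refine ⟨S, h1, ?_, ?_, hlaw⟩
  · intro M hM
    unfold reps
    rw [Set.ncard_eq_zero (hfin M), Set.eq_empty_iff_forall_notMem]
    rintro p ⟨h4, h5, h6, h7⟩
    have h8 := (h1 _ h6).1
    have h9 := (h1 _ h7).1
    apply h2 {p, M - p}
    · rw [hH]
      exact ⟨M, hM, p, M - p, h8, h9, by omega, h4, h5, rfl⟩
    · intro m hm
      simp only [mem_insert, mem_singleton] at hm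
      rcases hm with rfl | rfl
      exacts [h6, h7]
  · intro K
    obtain ⟨X0, hX0⟩ := Pool.Agent.U462.Sh.manyU hlaw 2 1 one_pos (1 / 3) (by norm_num) K
    refine ⟨X0 + 10 ^ 6, ?_⟩
    intro M hM hMe hME
    obtain ⟨h, hh⟩ := hMe
    obtain ⟨s, hs⟩ : ∃ s, s = Nat.sqrt M := ⟨_, rfl⟩
    have hs1 : s * s ≤ M := by rw [hs]; exact Nat.sqrt_le M
    have hs2 : M < (s + 1) * (s + 1) := by rw [hs]; exact Nat.lt_succ_sqrt M
    have hs3 : 1000 ≤ s := by
      by_contra hcon
      have : (s + 1) * (s + 1) ≤ 1000 * 1000 := Nat.mul_le_mul (by omega) (by omega)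
      omega
    have hval1 : ∀ m : ℕ, value (1, 0) m = m := by
      intro m
      simp [value]
    have hval2 : ∀ m : ℕ, m ≤ M → value (-1, (M : ℤ)) m = M - m := by
      intro m hm
      unfold value
      have : (-1 : ℤ) * (m : ℤ) + (M : ℤ) = ((M - m : ℕ) : ℤ) := by
        rw [Nat.cast_sub hm]; ring
      rw [this, Int.toNat_natCast]
    have hMpos : (0 : ℤ) + (M : ℤ) ≠ 0 := by
      rw [zero_add]
      exact_mod_cast (by omega : M ≠ 0)
    have h1000 : 1000 * s ≤ s * s := Nat.mul_le_mul hs3 le_rfl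
    refine (hX0 M (by omega) {((1 : ℤ), 0), (-1, (M : ℤ))}
      (Pool.Agent.U462.Sh.gold_sys _ _ hMpos) (Pool.Agent.U462.Sh.gold_card _ _) ?_ ?_
      (s + 1) (4 * s) (by omega) (by omega) ?_ ?_ ?_).trans ?_
    · intro l hl
      simp only [mem_insert, mem_singleton] at hl
      have : (1 : ℤ) ≤ M := by exact_mod_cast (by omega : 1 ≤ M)
      rcases hl with rfl | rfl
      · refine ⟨?_, ?_⟩
        · simp only [abs_one]; exact this
        · simp only [abs_zero]; linarith
      · refine ⟨?_, ?_⟩
        · simp only [abs_neg, abs_one]; exact this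
        · simp only [Nat.abs_cast]; exact le_rfl
    · intro t
      exact Pool.Agent.U462.Sh.ser_ge _ (Pool.Agent.U462.Sh.gold_sys _ _ hMpos)
        (Pool.Agent.U462.Sh.gold_card _ _) (Pool.Agent.U462.Sh.gold_two _ _
          ⟨(h : ℤ), by rw [zero_add, hh]; push_cast; ring⟩) t
    · have hsR : (1000 : ℝ) ≤ s := by exact_mod_cast hs3
      have hM3 : (M : ℝ) ≤ ((s : ℝ) + 1) ^ 3 := by
        have h4 : (M : ℝ) ≤ ((s : ℝ) + 1) * ((s : ℝ) + 1) := by exact_mod_cast hs2.le
        nlinarith
      have h4 : (M : ℝ) ^ (1 / 3 : ℝ) ≤ (s : ℝ) + 1 := by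
        calc (M : ℝ) ^ (1 / 3 : ℝ) ≤ (((s : ℝ) + 1) ^ 3) ^ (1 / 3 : ℝ) :=
              Real.rpow_le_rpow (by positivity) hM3 (by norm_num)
          _ = (s : ℝ) + 1 := by
              rw [← Real.rpow_natCast, ← Real.rpow_mul (by positivity)]
              norm_num
      push_cast
      linarith
    · intro m hm1 hm2 l hl
      simp only [mem_insert, mem_singleton] at hl
      have hm1' : (2 : ℤ) ≤ m := by exact_mod_cast (by omega : 2 ≤ m)
      have hm2' : (m : ℤ) + 2 ≤ M := by exact_mod_cast (by omega : m + 2 ≤ M)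
      rcases hl with rfl | rfl
      · simp only; linarith
      · simp only; linarith
    · refine le_trans (le_of_eq ?_) (Real.sqrt_nonneg _)
      rw [Nat.cast_eq_zero, Set.ncard_eq_zero ((Set.finite_Iio (4 * s)).subset fun m hm => hm.2.1),
        Set.eq_empty_iff_forall_notMem]
      rintro m ⟨hm1, hm2, M', hM', a, b, ha, hb, hab, hlow, hup, ⟨l, hl, hla⟩, l', hl', hlb⟩
      simp only [mem_insert, mem_singleton] at hl hl'
      rcases hl with rfl | rfl <;> rcases hl' with rfl | rfl
      · rw [hval1] at hla hlb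
        subst hla
        subst hlb
        nlinarith
      · rw [hval1] at hla
        rw [hval2 m (by omega)] at hlb
        have : M = M' := by omega
        rw [this] at hME
        exact hME hM'
      · rw [hval1] at hlb
        rw [hval2 m (by omega)] at hla
        have : M = M' := by omega
        rw [this] at hME
        exact hME hM'
      · rw [hval2 m (by omega)] at hla hlb
        have hba : b = a := by omega
        subst hba
        have hbig : 100 ≤ b := by omega
        nlinarith
    · unfold count reps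
      apply Set.ncard_le_ncard _ (hfin M)
      rintro m ⟨hm1, hm2, hall⟩
      have h4 := hall _ (mem_insert_self _ _)
      have h5 := hall _ (mem_insert_of_mem (mem_singleton_self _))
      rw [hval1 m] at h4
      rw [hval2 m (by omega)] at h5
      refine ⟨?_, ?_, h4, h5⟩
      · calc M < (s + 1) * (s + 1) := hs2
          _ ≤ m * m := Nat.mul_le_mul hm1 hm1
          _ = m ^ 2 := by ring
      · calc m ^ 2 = m * m := by ring
          _ < (4 * s) * (4 * s) := Nat.mul_lt_mul_of_lt_of_le hm2 hm2.le (by omega)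
          _ = 16 * (s * s) := by ring
          _ ≤ 16 * M := Nat.mul_le_mul_left _ hs1

end Pool.Agent.Results.MP_b454d1_nt.AnySparseExceptions
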