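import Pool.Agent.U455.GBS
import Pool.Agent.U455.APC

/-!
# Many even numbers at once with a common prime between `√N` and `4 √N`

Let `q ≥ 1`, let `r₀, ..., r_k` be coprime to `q` and `V = ∏ (1 - 1 / p)` over the primes `p ≤ X` not dividing `q`. Let
`Q₀, ..., Q_k` be ANY sets of at least `δ X V` integers `n` of intervals `(A_a, A_a + X]` with `n q + r_a > X` prime, such
that `√N < p < 4 √N` whenever `p = n q + r₀`, `n ∈ Q₀`, and `N = p + m q + r_i`, `m ∈ Q_i` (so the first set is one of primes of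
the common part of the Rivera windows of the numbers considered; for `q = 1` the length `X` is of order `√N`, and the sets
`Q_i` are dense sets of primes of arbitrary short intervals of this length).

For `b ∈ ℕᵏ` let `N_i = b_i q + r₀ + r_i`. The vector `b` is popular if for at least `κ X Vᵏ⁺¹` of the `n ∈ Q₀` the prime
`p = n q + r₀` satisfies, for ALL `i`, `√N_i < p < 4 √N_i` and `N_i - p = m q + r_i` with `m ∈ Q_i` (a prime of the set).

For every `k ≥ 1` and `δ > 0` there are `h`, `M ≥ 1` and `κ, ρ > 0`, depending on `k` and `δ` ONLY, such that for all large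
`X`, ALL `q`, `r`, `A` and `Q`:

* at least `ρ Xᵏ` of the vectors `b` of the box `A₀ + A_i < b_i ≤ A₀ + A_i + 2 X` are popular;
* there is `C` such that EVERY `C + t`, `t ∈ (M ℕ)ᵏ`, `t_i ≤ X`, is a sum of exactly `h` popular vectors.

The general theorem is `Pool.Agent.U455.GBS.main`.
-/

set_option autoImplicit false

namespace Pool.Agent.Results.MP_b454d1_nt.CommonPrimesOfRiveraWindows

open Finset

/-- the product of `1 - 1 / p` over the primes `p ≤ X` which do not divide `q` -/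
noncomputable def V (q X : ℕ) : ℝ := ∏ p ∈ (Icc 1 X).filter (fun p => p.Prime ∧ ¬ p ∣ q), (1 - 1 / (p : ℝ))

/-- `√N < p < 4 √N` -/
def Window (p N : ℕ) : Prop := √(N : ℝ) < p ∧ (p : ℝ) < 4 * √(N : ℝ)

open Classical in
/-- the number of the `n ∈ Q 0` such that for all `i`, `p = n q + r₀` is in the window of `N = b i q + r₀ + r i` and
`N - p = m q + r i` with `m` in `Q i` -/
noncomputable def reps {k : ℕ} (q : ℕ) (r : Fin (k + 1) → ℕ) (Q : Fin (k + 1) → Finset ℕ) (b : Fin k → ℕ) : ℕ :=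
  ((Q 0).filter (fun n : ℕ => ∀ i : Fin k, Window (n * q + r 0) (b i * q + r 0 + r i.succ) ∧
    ∃ m ∈ Q i.succ, (n * q + r 0) + (m * q + r i.succ) = b i * q + r 0 + r i.succ)).card

theorem result (k : ℕ) (hk : 1 ≤ k) (δ : ℝ) (hδ : 0 < δ) :
    ∃ h M : ℕ, 1 ≤ M ∧ ∃ κ ρ : ℝ, 0 < κ ∧ 0 < ρ ∧ ∃ X₀ : ℕ, ∀ X : ℕ, X₀ ≤ X →
    ∀ (q : ℕ) (r A : Fin (k + 1) → ℕ) (Q : Fin (k + 1) → Finset ℕ), 1 ≤ q → (∀ a, Nat.Coprime q (r a)) →
      (∀ a, Q a ⊆ Ioc (A a) (A a + X)) → (∀ a, ∀ n ∈ Q a, (n * q + r a).Prime ∧ X < n * q + r a) →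
      (∀ a, δ * (X * V q X) ≤ (Q a).card) →
      (∀ n ∈ Q 0, ∀ i : Fin k, ∀ m ∈ Q i.succ, Window (n * q + r 0) ((n * q + r 0) + (m * q + r i.succ))) →
      (∃ P : Finset (Fin k → ℕ), ρ * (X : ℝ) ^ k ≤ (P.card : ℝ) ∧ ∀ b ∈ P,
        (∀ i, A 0 + A i.succ < b i ∧ b i ≤ A 0 + A i.succ + 2 * X) ∧
          κ * (X * V q X ^ (k + 1)) ≤ (reps q r Q b : ℝ)) ∧
      ∃ C : Fin k → ℕ, ∀ t : Fin k → ℕ, (∀ i, M ∣ t i) → (∀ i, t i ≤ X) →
        ∃ l : List (Fin k → ℕ), l.length = h ∧ l.sum = C + t ∧ ∀ b ∈ l,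
          (∀ i, A 0 + A i.succ < b i ∧ b i ≤ A 0 + A i.succ + 2 * X) ∧
            κ * (X * V q X ^ (k + 1)) ≤ (reps q r Q b : ℝ) := by
  classical
  obtain ⟨h, M, hM, c, ρ, hc, hρ, X₀, hmain⟩ := Pool.Agent.U455.GBS.main 1 k hk 1 δ one_pos le_rfl hδ
  refine ⟨h, M, hM, c, ρ, hc, hρ, X₀, fun X hX q r A Q hq hqr hQ hQp hQc hW => ?_⟩
  have hV : ∀ a, Pool.Agent.Y843.HS.VV (Pool.Agent.U455.APC.cl q (r a)) 0 X = V q X :=
    fun a => (Pool.Agent.U455.APC.VV_eq (hqr a) X).symm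
  have hm := hmain X hX (fun a => Pool.Agent.U455.APC.cl q (r a)) (fun a => Pool.Agent.U455.APC.adm (hqr a)) A Q
    (fun a => Pool.Agent.U455.APC.sub_Sift (hQ a) (hQp a)) (fun a => by rw [hV]; exact hQc a)
  have hprod : ∏ a : Fin (k + 1), Pool.Agent.Y843.HS.VV (Pool.Agent.U455.APC.cl q (r a)) 0 X = V q X ^ (k + 1) := by
    rw [Finset.prod_congr rfl (fun a _ => hV a), prod_const, card_univ, Fintype.card_fin]
  rw [hprod] at hm
  have key : ∀ b : Fin k → ℕ, ((Pool.Agent.U455.GBS.rep Q b).card : ℝ) ≤ (reps q r Q b : ℝ) := by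
    intro b
    have h1 : (Pool.Agent.U455.GBS.rep Q b).card ≤ reps q r Q b := by
      unfold reps
      apply card_le_card
      intro n hn
      unfold Pool.Agent.U455.GBS.rep at hn
      rw [mem_filter] at hn ⊢
      refine ⟨hn.1, fun i => ?_⟩
      obtain ⟨m, hm1, hm2⟩ := hn.2 i
      have e : (n * q + r 0) + (m * q + r i.succ) = b i * q + r 0 + r i.succ := by
        rw [← hm2]
        ring
      refine ⟨?_, m, hm1, e⟩
      rw [← e]
      exact hW n hn.1 i m hm1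
    exact_mod_cast h1
  obtain ⟨⟨P, hP1, hP2⟩, C, hC⟩ := hm
  refine ⟨⟨P, hP1, fun b hb => ⟨(hP2 b hb).1, (hP2 b hb).2.trans (key b)⟩⟩, C, fun t hMt htX => ?_⟩
  obtain ⟨l, l1, l2, l3⟩ := hC t hMt htX
  exact ⟨l, l1, l2, fun b hb => ⟨(l3 b hb).1, (l3 b hb).2.trans (key b)⟩⟩

end Pool.Agent.Results.MP_b454d1_nt.CommonPrimesOfRiveraWindows
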